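import Pool.Agent.Helper710_TMix.DomDefs

/-!
Upper bound for the mixed domination Ramsey numbers `v(m,n)`.
-/

set_option autoImplicit false
open Filter Topology

namespace Pool.Agent.Results.MP_d3024b_co.DomMixedUpper

open Pool.Agent.Helper710_TMix

/-- For every fixed `m ≥ 3`, `v(m,n) ≤ (√(8/3) + o(1)) n^(m - 3/2) / √(log n)`. -/
theorem result : ∀ m : ℕ, 3 ≤ m → ∀ ε : ℝ, 0 < ε → ∀ᶠ n : ℕ in atTop,
    (vNum m n : ℝ)
      ≤ (Real.sqrt (8 / 3) + ε) * ((n : ℝ) ^ ((m : ℝ) - 3 / 2) / Real.sqrt (Real.log n)) :=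
  fun m hm ε hε => vNum_le m hm ε hε

end Pool.Agent.Results.MP_d3024b_co.DomMixedUpper
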