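import Pool.Agent.Helper710_TMix.DomDefs

/-!
`v(3,n) / r(3,n)` tends to zero.
-/

set_option autoImplicit false
open Filter Topology

namespace Pool.Agent.Results.MP_d3024b_co.DomVsClassical3

open Pool.Agent.Helper710_TMix

/-- The pair `(v,r)` for `m = 3`: `v(3,n) / r(3,n) → 0`. -/
theorem result : Tendsto (fun n : ℕ => (vNum 3 n : ℝ) / (rNum 3 n : ℝ)) atTop (𝓝 0) := by
  have hup := vNum_le 3 (le_refl 3) 1 one_pos
  set c : ℝ := (Real.sqrt (8 / 3) + 1) * (8 * Real.sqrt 8) with hc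
  have h8 : (0 : ℝ) < Real.sqrt 8 := Real.sqrt_pos.mpr (by norm_num)
  have hlim : Tendsto (fun n : ℕ => c / Real.sqrt (Real.log n)) atTop (𝓝 0) := by
    apply Tendsto.div_atTop tendsto_const_nhds
    exact Real.tendsto_sqrt_atTop.comp (Real.tendsto_log_atTop.comp tendsto_natCast_atTop_atTop)
  refine squeeze_zero' (Eventually.of_forall fun n => by positivity) ?_ hlim
  filter_upwards [hup, eventually_ge_atTop 7200] with n hn hn2
  have hn' : (7200 : ℝ) ≤ n := by exact_mod_cast hn2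
  have hlow := le_rNum n hn2
  have hlog : 0 < Real.log n := Real.log_pos (by linarith)
  have hs : 0 < Real.sqrt (Real.log n) := Real.sqrt_pos.mpr hlog
  have hsn : 0 < Real.sqrt n := Real.sqrt_pos.mpr (by linarith)
  have hpow : (n : ℝ) ^ (((3 : ℕ) : ℝ) - 3 / 2) = (n : ℝ) * Real.sqrt n := by
    have h1 : ((3 : ℕ) : ℝ) - 3 / 2 = 1 + 1 / 2 := by norm_num
    rw [h1, Real.rpow_add (by linarith), Real.rpow_one, Real.sqrt_eq_rpow]
  rw [hpow] at hn
  have hr0 : (0 : ℝ) < rNum 3 n := lt_of_lt_of_le (by positivity) hlow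
  rw [div_le_div_iff₀ hr0 hs]
  have hlow' : (n : ℝ) * Real.sqrt n ≤ rNum 3 n * (8 * Real.sqrt 8) := by
    rwa [div_le_iff₀ (by positivity)] at hlow
  have h2 : (vNum 3 n : ℝ) * Real.sqrt (Real.log n) ≤
      (Real.sqrt (8 / 3) + 1) * ((n : ℝ) * Real.sqrt n) := by
    calc (vNum 3 n : ℝ) * Real.sqrt (Real.log n)
        ≤ ((Real.sqrt (8 / 3) + 1) * ((n : ℝ) * Real.sqrt n / Real.sqrt (Real.log n)))
            * Real.sqrt (Real.log n) := mul_le_mul_of_nonneg_right hn hs.le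
      _ = (Real.sqrt (8 / 3) + 1) * ((n : ℝ) * Real.sqrt n) := by field_simp
  calc (vNum 3 n : ℝ) * Real.sqrt (Real.log n)
      ≤ (Real.sqrt (8 / 3) + 1) * ((n : ℝ) * Real.sqrt n) := h2
    _ ≤ (Real.sqrt (8 / 3) + 1) * (rNum 3 n * (8 * Real.sqrt 8)) :=
        mul_le_mul_of_nonneg_left hlow' (by positivity)
    _ = c * rNum 3 n := by rw [hc]; ring

end Pool.Agent.Results.MP_d3024b_co.DomVsClassical3
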